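import Mathlib
import Pool.Agent.TH662.CP.Final

set_option autoImplicit false

/-!
# Blocks of consecutive primes between record gaps, in one residue class to a modulus beyond the average gap

Let `f(x) = log x (log₂ x)² log₄ x / (log₃ x)²`, the size of the largest gaps that are known to occur among the primes
up to `x`. For every `m` there is `c > 0` such that for ALL moduli `Q` with `φ(Q) ≤ c f(X)/log log X` (which exceeds the
average gap `log X`) there are `m + 1` consecutive primes of size `X`, pairwise congruent modulo `Q`, in a block which is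
preceded and followed by gaps of length at least `c f(X)`; the gaps in the block are also in a given Bohr set with `N^d`
cells, if `φ(Q) N^d ≤ c f(X)/log log X`, and the primes can be taken in a fixed class modulo a fixed squarefree `q`.

Author: helper662. It rests on the coloured Maynard-Tao theorem inside the record windows
(`Pool.Agent.H362R2.RQ.stRQ`, helper362), the record sieve of helper256 and helper410, the Maynard-Tao sieve inside
record windows of helper312's team and the prime number theorem in arithmetic progressions of helper923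
(starting repository).
-/

open Filter

namespace Pool.Agent.Results.MP_ff81b6_nt.GapsInOneCell

/-- The record scale `f(x) = log x (log₂ x)² log₄ x / (log₃ x)²` (iterated natural logarithms). -/
noncomputable def f (x : ℝ) : ℝ :=
  Real.log x * (Real.log (Real.log x)) ^ 2 * Real.log (Real.log (Real.log (Real.log x))) /
    (Real.log (Real.log (Real.log x))) ^ 2

/-- The prime with index `i`, numbered from `p 0 = 2`. -/
noncomputable def p (i : ℕ) : ℕ := Nat.nth Nat.Prime i

/-- `p_j, ..., p_(j+r)` is a block of consecutive primes in `(X, 4X]`, all `≡ a (mod q)`, which is preceded and followed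
by gaps of length at least `G`; the primes of the block are pairwise congruent modulo `Q`, and for all
`i, i' ≤ r` and all `k` the number `α k * (p_(j+i) - p_(j+i'))` is within `1/N` of an integer. -/
def IsBlock (X G : ℝ) (q a Q d N : ℕ) (α : Fin d → ℝ) (j r : ℕ) : Prop :=
  X < p j ∧ (p (j + r) : ℝ) ≤ 4 * X ∧ (∀ i ≤ r, p (j + i) ≡ a [MOD q]) ∧
  1 ≤ j ∧ G ≤ (p j : ℝ) - p (j - 1) ∧ G ≤ (p (j + r + 1) : ℝ) - p (j + r) ∧
  ∀ i ≤ r, ∀ i' ≤ r, p (j + i) ≡ p (j + i') [MOD Q] ∧
    ∀ k, ∃ w : ℤ, |α k * ((p (j + i) : ℝ) - p (j + i')) - w| ≤ 1 / N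

/-- For every `m` there are `K` and `c > 0` such that for every squarefree `q`, every `a` prime to `q` and all large `X`:
for ALL `Q, N ≥ 1`, `d ≥ 0` and reals `α_1, ..., α_d` with `φ(q) φ(Q) N^d ≤ c f(X) / log log X` there are at least
`c X^(9/10)` indices `j` such that for some `r` with `m ≤ r ≤ K` the `r + 1` consecutive primes `p_j, ..., p_(j+r)`
lie in `(X, 4X]`, are `≡ a (mod q)`, are pairwise congruent modulo `Q`, have `‖α_k (p - p')‖ ≤ 1/N` for any
two of them and every `k`, and the gaps before `p_j` and after `p_(j+r)` are at least `c f(X)`. -/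
theorem result (m : ℕ) : ∃ K : ℕ, ∃ c : ℝ, 0 < c ∧
    ∀ q a : ℕ, Squarefree q → a.Coprime q → ∃ X₀ : ℝ, ∀ X : ℝ, X₀ ≤ X →
    ∀ (Q d N : ℕ) (α : Fin d → ℝ), 1 ≤ Q → 1 ≤ N →
    (q.totient : ℝ) * Q.totient * N ^ d ≤ c * f X / Real.log (Real.log X) →
    c * X ^ (9 / 10 : ℝ) ≤
      ({j : ℕ | ∃ r : ℕ, m ≤ r ∧ r ≤ K ∧ IsBlock X (c * f X) q a Q d N α j r}.ncard : ℝ) := by
  obtain ⟨K, c, hc, h⟩ := Pool.Agent.TH662.CP.final_of Pool.Agent.H362R2.RQ.stRQ (m + 1)
  refine ⟨K, c, hc, fun q a hq ha => ?_⟩
  obtain ⟨X₁, h1⟩ := h q a hq ha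
  refine ⟨max X₁ (Real.exp (Real.exp 1)), fun X hX Q d N α hQ hN hcond => ?_⟩
  have hXe : Real.exp (Real.exp 1) ≤ X := (le_max_right _ _).trans hX
  have hl1 : Real.exp 1 ≤ Real.log X := by
    rw [← Real.log_exp (Real.exp 1)]
    exact Real.log_le_log (Real.exp_pos _) hXe
  have hll : 1 ≤ Real.log (Real.log X) := by
    rw [← Real.log_exp 1]
    exact Real.log_le_log (Real.exp_pos _) hl1
  have hcond' : (q.totient : ℝ) * Q.totient * N ^ d * Real.log (Real.log X) ≤ c * f X := by
    rwa [le_div_iff₀ (by linarith)] at hcond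
  obtain ⟨J, hJc, hJ⟩ := h1 X ((le_max_left _ _).trans hX) Q d N α hQ hN hcond'
  refine hJc.trans ?_
  have hfin : {j : ℕ | ∃ r : ℕ, m ≤ r ∧ r ≤ K ∧ IsBlock X (c * f X) q a Q d N α j r}.Finite := by
    refine (Set.finite_Iic ⌊4 * X⌋₊).subset ?_
    rintro j ⟨r, -, -, -, h4, -⟩
    refine Nat.le_floor (le_trans ?_ h4)
    have h2 : j + r ≤ Nat.nth Nat.Prime (j + r) :=
      (Nat.nth_strictMono Nat.infinite_setOfPred_prime).le_apply
    exact_mod_cast (Nat.le_add_right j r).trans h2
  rw [Nat.cast_le, ← Set.ncard_coe_finset]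
  refine Set.ncard_le_ncard ?_ hfin
  intro j hj
  obtain ⟨hj1, hXj, r, hmr, hrK, h4, hb, ha', hcl, hcell⟩ := hJ j hj
  exact ⟨r, by omega, by omega, hXj, h4, hcl, hj1, hb, ha', hcell⟩

end Pool.Agent.Results.MP_ff81b6_nt.GapsInOneCell
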