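import Mathlib
import Pool.Agent.TH816.RR.Ord2

/-!
# The orders of consecutive record gaps

Of the `k!` possible orders of `k` consecutive prime gaps at least `k! exp (-C k sqrt (log k)) = (k!) ^ (1 - o(1))`
occur infinitely often among the chains of `k` consecutive gaps of record size `≥ δ f(p)`, with all the primes of
the chain in one residue class `a` modulo `q` (`q` squarefree).
-/

set_option autoImplicit false

namespace Pool.Agent.Results.MP_ff81b6_nt.OrdersOfRecordGaps

/-- the size of the largest gaps known to exist near `x` -/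
noncomputable def f (x : ℝ) : ℝ :=
  Real.log x * (Real.log (Real.log x)) ^ 2 * Real.log (Real.log (Real.log (Real.log x))) /
    (Real.log (Real.log (Real.log x))) ^ 2

/-- The set of the orders `π` of `k` consecutive record gaps: for infinitely many `n` the primes
`p_n, ..., p_(n+k)` are all congruent to `a` modulo `q`, the gaps `p_(n+i+1) - p_(n+i)`, `0 ≤ i < k`, are at least
`δ f(p_(n+i))`, and `π i < π j` if and only if the gap with number `i` is smaller than the gap with number `j`.
Here `p_n = Nat.nth Nat.Prime n`. -/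
def Orders (δ : ℝ) (q a k : ℕ) : Set (Equiv.Perm (Fin k)) :=
  {π | ∀ N0 : ℕ, ∃ n > N0, (∀ i ≤ k, Nat.nth Nat.Prime (n + i) ≡ a [MOD q]) ∧
    (∀ i < k, δ * f (Nat.nth Nat.Prime (n + i)) ≤
      (Nat.nth Nat.Prime (n + i + 1) : ℝ) - Nat.nth Nat.Prime (n + i)) ∧
    ∀ i j : Fin k, π i < π j ↔
      Nat.nth Nat.Prime (n + i + 1) - Nat.nth Nat.Prime (n + i) <
        Nat.nth Nat.Prime (n + j + 1) - Nat.nth Nat.Prime (n + j)}

/-- There is `C > 0` such that for every `k ≥ 1` there is `δ > 0` such that for every squarefree `q` and every `a`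
prime to `q` at least `k! exp (-C k sqrt (log k))` of the orders of `k` consecutive record gaps occur. -/
theorem result : ∃ C : ℝ, 0 < C ∧ ∀ k : ℕ, 1 ≤ k → ∃ δ : ℝ, 0 < δ ∧ ∀ q a : ℕ, Squarefree q →
    Nat.Coprime a q →
    (k.factorial : ℝ) * Real.exp (-(C * k * Real.sqrt (Real.log k))) ≤ (Orders δ q a k).ncard :=
  Pool.Agent.TH816.RR.ord_explicit

end Pool.Agent.Results.MP_ff81b6_nt.OrdersOfRecordGaps
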