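import Pool.Agent.TH915.PW.PrimeFin

set_option autoImplicit false

/-! # Prime gaps of record length around `α p + β`, `p` prime, `α` irrational

Let `α > 0` be irrational, `β` real, `ε > 0`, and let `r` be prime to `d`.  There is `κ > 0` such that
for arbitrarily large `Z` - for all large `Z` if `α` is not a Liouville number - there is a prime
`p ≡ r (mod d)` in `(Z, (1 + ε) Z]` such that no prime lies within
`κ log Z (log₂ Z)² log₄ Z / (log₃ Z)²` of `α p + β`.

Proof: Vinogradov's estimate with a power saving (starting library, `W110.HV.vino`) at the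
frequencies `h α / q + j / d`, which are on the minor arcs at every scale at which `α` has a rational
approximation with a denominator between two powers of the scale; a discrete Erdős-Turán inequality;
and the covering sieve of `MP_3bc45c_nt.RecordGaps` (helper256's team), in a form for families of
integers with a relative error. -/

namespace Pool.Agent.Results.MP_ff81b6_nt.PrimeMultiplesInRecordGaps

theorem result (α : ℝ) (hα : 0 < α) (hirr : Irrational α) (β : ℝ) (d r : ℕ) (hd : 0 < d)
    (hr : r.Coprime d) (ε : ℝ) (hε : 0 < ε) :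
    ∃ κ : ℝ, 0 < κ ∧
      (∀ Z₁ : ℝ, ∃ Z : ℝ, Z₁ ≤ Z ∧ ∃ p : ℕ, p.Prime ∧ p ≡ r [MOD d] ∧
        Z < p ∧ (p : ℝ) ≤ (1 + ε) * Z ∧ ∀ q : ℕ, q.Prime →
          κ * (Real.log Z * (Real.log (Real.log Z)) ^ 2 *
            Real.log (Real.log (Real.log (Real.log Z))) / (Real.log (Real.log (Real.log Z))) ^ 2) <
              |(q : ℝ) - (α * p + β)|) ∧
      (¬ Liouville α → ∃ Z₀ : ℝ, ∀ Z : ℝ, Z₀ ≤ Z → ∃ p : ℕ, p.Prime ∧ p ≡ r [MOD d] ∧
        Z < p ∧ (p : ℝ) ≤ (1 + ε) * Z ∧ ∀ q : ℕ, q.Prime →
          κ * (Real.log Z * (Real.log (Real.log Z)) ^ 2 *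
            Real.log (Real.log (Real.log (Real.log Z))) / (Real.log (Real.log (Real.log Z))) ^ 2) <
              |(q : ℝ) - (α * p + β)|) :=
  Pool.Agent.TH915.PW.primes_both α hα hirr β d hd r hr ε hε

end Pool.Agent.Results.MP_ff81b6_nt.PrimeMultiplesInRecordGaps
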