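import Pool.Agent.TH29.GQ.Fin

set_option autoImplicit false

/-!
# Small shapes at exactly the average scale, with positive upper density

For every `k` there is `c > 0` such that EVERY set `F ⊆ [-c, c]` of at most `k` numbers with `0 ∈ F`
is approximated, for a set of primes `p` of positive upper density, by the numbers
`(p' - p) / log p`, where `p'` runs through the primes with `|p' - p| ≤ 2 c log p`: all these numbers
are within `ε` of `F`, every point of `F` is approached by at least `m` primes, and `p` is the last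
prime of its cluster.

For two points this says that EVERY `x ∈ [0, c]` is approximated, for a set of `n` of positive upper
density, by the normalised gaps `(p_{n+1} - p_n) / log p_n`.  (Pintz: all `x ∈ [0, c]` are limit
points.)

Method: as in `MP_69be96_nt.ShapesOfPositiveDensity`, with a different shape on each level of the
tree of places; if the assertion fails, there are bad shapes of every size, and a tree built of bad
shapes gives a contradiction (so that `c` is not explicit).
-/

namespace Pool.Agent.Results.MP_ff81b6_nt.SmallShapesAtAverageScale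

/-- The `n`-th prime, numbered from `p 0 = 2`. -/
noncomputable def p (n : ℕ) : ℕ := Nat.nth Nat.Prime n

/-- The set `S` of indices has positive upper density. -/
def PositiveUpperDensity (S : Set ℕ) : Prop :=
  ∃ δ : ℝ, 0 < δ ∧ ∀ N₀ : ℕ, ∃ N : ℕ, N₀ ≤ N ∧ δ * N ≤ ({n : ℕ | n < N ∧ n ∈ S}.ncard : ℝ)

/-- At the scale `H` the primes seen from `q` form the set `F`: every prime `q'` with
`|q' - q| ≤ R H` is within `ε H` of `q + v H` for some `v ∈ F`, with `v ≠ 0` if `q' > q`, and at
least `m` primes are within `ε H` of `q + v H`, for every `v ∈ F`. -/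
def Looks (F : Finset ℝ) (m : ℕ) (R ε H : ℝ) (q : ℕ) : Prop :=
  (∀ q' : ℕ, q'.Prime → |(q' : ℝ) - q| ≤ R * H →
    ∃ v ∈ F, (q < q' → v ≠ 0) ∧ |(q' : ℝ) - q - v * H| ≤ ε * H) ∧
  ∀ v ∈ F, m ≤ {q' : ℕ | q'.Prime ∧ |(q' : ℝ) - q - v * H| ≤ ε * H}.ncard

theorem dense_of {Q : ℕ → Prop} (h : Pool.Agent.TH29.GQ.UpperDense Q) :
    PositiveUpperDensity {n | Q n} := by
  classical
  obtain ⟨δ, h0, h1⟩ := h
  refine ⟨δ, h0, fun N₀ => ?_⟩
  obtain ⟨N, hN, h2⟩ := h1 N₀
  refine ⟨N, hN, h2.trans ?_⟩
  rw [Nat.cast_le, ← Set.ncard_coe_finset]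
  refine Set.ncard_le_ncard ?_ ((Set.finite_Iio N).subset fun n hn => hn.1)
  intro n hn
  rw [Finset.mem_coe, Finset.mem_filter, Finset.mem_range] at hn
  exact hn

/-- For every `k` there is `c > 0` such that for every set `F` of at most `k` numbers of `[-c, c]`
with `0 ∈ F`, all `m` and all `ε > 0`, the set of the `n` such that the primes seen from `p n` at
the scale `log (p n)`, up to the distance `2 c log (p n)`, form the set `F`, has positive upper
density.  In particular there is `c > 0` such that every `x ∈ [0, c]` is approximated up to any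
`ε > 0` by the normalised gaps `(p_{n+1} - p_n) / log p_n`, for a set of `n` of positive upper
density. -/
theorem result :
    (∀ k : ℕ, ∃ c : ℝ, 0 < c ∧ ∀ F : Finset ℝ, (0 : ℝ) ∈ F → F.card ≤ k → (∀ v ∈ F, |v| ≤ c) →
      ∀ (m : ℕ) (ε : ℝ), 0 < ε →
        PositiveUpperDensity {n | Looks F m (2 * c) ε (Real.log (p n)) (p n)}) ∧
    (∃ c : ℝ, 0 < c ∧ ∀ x : ℝ, 0 ≤ x → x ≤ c → ∀ ε : ℝ, 0 < ε →
      PositiveUpperDensity {n | |((p (n + 1) : ℝ) - p n) / Real.log (p n) - x| ≤ ε}) := by
  constructor
  · intro k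
    obtain ⟨c, hc, h⟩ := Pool.Agent.TH29.GQ.exact_fin k
    exact ⟨c, hc, fun F hF hk hv m ε hε => dense_of (h F hF hk hv m ε hε)⟩
  · obtain ⟨c, hc, h⟩ := Pool.Agent.TH29.GQ.gaps_fin
    exact ⟨c, hc, fun x hx hxc ε hε => dense_of (h x hx hxc ε hε)⟩

end Pool.Agent.Results.MP_ff81b6_nt.SmallShapesAtAverageScale
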